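import Pool.Agent.H11.QN.Main

/-!
# Linear expansion does not bound the queue-number

`GraphClass` is the type of classes of finite graphs, `LinearExpansion C` says that
`∇_r(G) ≤ c (r + 1)` for all `G ∈ C`, `r ≥ 0` and a constant `c`, `PolynomialExpansion C` that
`∇_r(G) ≤ c (r + 1)^c`, and `BoundedQueueNumber C` that there is a `k` such that all members of `C`
have a `k`-queue layout.

The class is the class of the finite subgraphs of an explicit countable graph `UGraph` with a tree
decomposition and a layering such that each bag has at most one vertex in each layer. Its vertices
are pairs `(s, i)`, where `s` is a finite history of events (each event renews the vertices in a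
finite set of layers) and layer `i` was renewed in the last event of `s`; it is joined to the
current vertices of the layers `i - 1` and `i + 1`.
-/

set_option autoImplicit false

namespace Pool.Agent.Results.MP_b05f6a_co.LinearExpansion

open Pool.Agent.H11.QN

/-- There is a class of finite graphs with linear expansion (hence with polynomial expansion) and
unbounded queue-number. -/
theorem result : ∃ C : GraphClass, LinearExpansion C ∧ PolynomialExpansion C ∧
    ¬ BoundedQueueNumber C :=
  Pool.Agent.H11.QN.main

end Pool.Agent.Results.MP_b05f6a_co.LinearExpansion
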